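import Mathlib
import Pool.Agent.TH465.OM.E

set_option autoImplicit false

/-! The truncated average order of the total stopping time of the `3x+1` function over the integers
with a given parity of the number of prime factors, with the weights `μ(n)`, and with bounded weights
which have a mean in almost all short intervals. -/

namespace Pool.Agent.Results.MP_529d88_nt.AverageOverPrimeParity

open Filter Topology

/-- the `3x+1` function -/
def T (n : ℕ) : ℕ := if n % 2 = 0 then n / 2 else (3 * n + 1) / 2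

open scoped Classical in
/-- `min (σ_∞(n), t)`: the least `k` with `T^k n = 1`, cut at `t`; it is `t` if there is no such `k` -/
noncomputable def truncated (t : ℝ) (n : ℕ) : ℝ :=
  if h : ∃ k, T^[k] n = 1 then min (Nat.find h : ℝ) t else t

/-- `1/N` times the sum of the `g n * min (σ_∞(n), Λ * log N)` over the `n ≤ N` is
`(l + o(1)) * log N` -/
def HasAverage (g : ℕ → ℝ) (Λ l : ℝ) : Prop :=
  Tendsto (fun N : ℕ => (1 / (N : ℝ) * ∑ n ∈ Finset.Icc 1 N, g n * truncated (Λ * Real.log N) n) /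
    Real.log N) atTop (𝓝 l)

/-- `g` is bounded and has the mean `α` in almost all short intervals: for every `ε > 0` there is a
length `H` such that the sum of `g` over `[n, n + H)` is within `ε * H` of `α * H` except for at most
`ε * N` of the `n ≤ N`, for all large `N` -/
def HasShortMean (g : ℕ → ℝ) (α : ℝ) : Prop := (∃ B : ℝ, ∀ n, |g n| ≤ B) ∧
  ∀ ε : ℝ, 0 < ε → ∃ H : ℕ, 1 ≤ H ∧ ∀ᶠ N : ℕ in atTop,
    ({n : ℕ | 1 ≤ n ∧ n ≤ N ∧ ε * H < |(∑ j ∈ Finset.range H, g (n + j)) - α * H|}.ncard : ℝ) ≤ ε * N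

open Pool.Agent.TH465.OM Pool.Agent.H499R2.ND in
theorem avg_of {δ : ℝ} (hδ : Dn Bas δ) {w : ℕ → ℝ} {W A1 A2 Λ : ℝ} (hW : ∀ n, |w n| ≤ W)
    (h1 : Mn (fun n => w n * ind Bas n) A1) (h2 : Mn (fun n => w n * ind (fun n => ¬ Bas n) n) A2)
    (hΛ : 2 / Real.log (4 / 3) < Λ) :
    HasAverage w Λ (2 / Real.log (4 / 3) * A1 + Λ * A2) := by
  classical
  have h3 := trunc_w (R := fun _ => True) (H := fun m h => Tn^[h] m = 1 ∧ ∀ j < h, Tn^[j] m ≠ 1)
    (f := truncated) (div_pos (by norm_num) (Real.log_pos (by norm_num))) hΛ ?_ ?_ ?_ ?_ hW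
    (fun n hn => absurd trivial hn) h1 h2
  · unfold HasAverage
    refine h3.congr fun N => ?_
    ring
  · intro ε hε
    refine zd_mono (bas_zd hδ (fun n _ ⟨t, ht, _⟩ => ⟨t, ht⟩) (bas_profile hδ hε)) fun n _ h => ?_
    obtain ⟨_, hb, hq⟩ := h
    refine ⟨hb, fun hp => hq ?_⟩
    obtain ⟨t, ht1, ht2, ht3, _⟩ := hp
    exact ⟨t, ⟨ht1, ht2⟩, ht3⟩
  · rintro t m h ⟨g1, g2⟩
    have hex : ∃ k, T^[k] m = 1 := ⟨h, g1⟩
    have e : Nat.find hex = h := by
      apply le_antisymm (Nat.find_min' hex g1)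
      by_contra hcon
      push Not at hcon
      exact g2 _ hcon (Nat.find_spec hex)
    unfold truncated
    rw [dif_pos hex, e]
  · intro t m _ hb
    have hb' : ¬ ∃ k, T^[k] m = 1 := hb
    unfold truncated
    rw [dif_neg hb']
  · intro t m ht
    unfold truncated
    split_ifs
    · exact ⟨le_min (Nat.cast_nonneg _) ht, min_le_right _ _⟩
    · exact ⟨ht, le_rfl⟩

/-- THE AVERAGE ORDER OF THE TOTAL STOPPING TIME AND PRIME FACTORS. -/
theorem result : ∃ δ : ℝ, 0 < δ ∧ δ ≤ 1 ∧ (δ = 1 ↔ ∀ n : ℕ, 1 ≤ n → ∃ k, T^[k] n = 1) ∧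
    ∀ Λ : ℝ, 2 / Real.log (4 / 3) < Λ →
      (∀ e Q r : ℕ, 1 ≤ Q → HasAverage (fun n =>
        if ArithmeticFunction.cardFactors n % 2 = e % 2 ∧ n % Q = r % Q then 1 else 0) Λ
          ((δ * (2 / Real.log (4 / 3)) + (1 - δ) * Λ) / (2 * Q))) ∧
      (∀ Q r : ℕ, 1 ≤ Q → HasAverage (fun n =>
        if n % Q = r % Q then (ArithmeticFunction.moebius n : ℝ) else 0) Λ 0) ∧
      (∀ (g : ℕ → ℝ) (α : ℝ), HasShortMean g α →
        HasAverage g Λ (α * (δ * (2 / Real.log (4 / 3)) + (1 - δ) * Λ))) := by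
  classical
  obtain ⟨δ, h0, h1, h2, h3⟩ := Pool.Agent.H499R2.ND.Bas_density
  have hBas : Pool.Agent.H499R2.ND.Dn Pool.Agent.H499R2.ND.Bas δ := h3
  have hinf : Pool.Agent.H499R2.ND.Dn (fun n => ¬ Pool.Agent.H499R2.ND.Bas n) (1 - δ) := by
    have h5 : Pool.Agent.H499R2.CO.HD (fun n => Pool.Agent.H499R2.ND.Bas n) δ := h3
    exact Pool.Agent.H499R2.CO.HD_not h5
  have hin : Pool.Agent.H499R2.ND.Dn (fun n => ¬ ((¬ Pool.Agent.H499R2.ND.Bas n) ↔
      (¬ Pool.Agent.H499R2.ND.Bas (n + 1)))) 0 := Pool.Agent.TH465.OM.inf_next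
  have hfn : Pool.Agent.H499R2.ND.Dn (fun n => ¬ (Pool.Agent.H499R2.ND.Bas n ↔
      Pool.Agent.H499R2.ND.Bas (n + 1))) 0 :=
    Pool.Agent.H499R2.ND.zd_mono hin fun n _ h => by rw [not_iff_not]; exact h
  obtain ⟨b1, b2, b3⟩ := Pool.Agent.TH465.OM.basic hBas hfn
  obtain ⟨c1, c2, c3⟩ := Pool.Agent.TH465.OM.basic hinf hin
  refine ⟨δ, h0, h1, h2, fun Λ hΛ => ⟨fun e Q r hQ => ?_, fun Q r hQ => ?_, fun g α hg => ?_⟩⟩
  · have hprod : ∀ (P : ℕ → Prop) (n : ℕ), Pool.Agent.TH465.OM.ind (fun n =>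
        ArithmeticFunction.cardFactors n % 2 = e % 2 ∧ (n % Q = r % Q ∧ P n)) n =
        (if ArithmeticFunction.cardFactors n % 2 = e % 2 ∧ n % Q = r % Q then (1 : ℝ) else 0) *
          Pool.Agent.TH465.OM.ind P n := by
      intro P n
      unfold Pool.Agent.TH465.OM.ind
      by_cases g1 : ArithmeticFunction.cardFactors n % 2 = e % 2 <;>
        by_cases g2 : n % Q = r % Q <;> by_cases g3 : P n <;> simp [g1, g2, g3]
    have h7 := avg_of hBas (w := fun n =>
        if ArithmeticFunction.cardFactors n % 2 = e % 2 ∧ n % Q = r % Q then (1 : ℝ) else 0) (W := 1) ?_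
      (Pool.Agent.TH465.OM.mn_congr (Pool.Agent.TH465.OM.mn_ind.2 (b1 e Q r hQ)) fun n _ => hprod _ n)
      (Pool.Agent.TH465.OM.mn_congr (Pool.Agent.TH465.OM.mn_ind.2 (c1 e Q r hQ)) fun n _ => hprod _ n) hΛ
    · have e1 : 2 / Real.log (4 / 3) * (δ / (Q : ℝ) / 2) + Λ * ((1 - δ) / (Q : ℝ) / 2) =
          (δ * (2 / Real.log (4 / 3)) + (1 - δ) * Λ) / (2 * Q) := by
        ring
      rw [e1] at h7
      exact h7
    · intro n
      show |(if ArithmeticFunction.cardFactors n % 2 = e % 2 ∧ n % Q = r % Q then (1 : ℝ) else 0)| ≤ 1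
      split_ifs <;> simp
  · have hprod : ∀ (P : ℕ → Prop) (n : ℕ), (ArithmeticFunction.moebius n : ℝ) *
        Pool.Agent.TH465.OM.ind (fun n => n % Q = r % Q ∧ P n) n =
        (if n % Q = r % Q then (ArithmeticFunction.moebius n : ℝ) else 0) *
          Pool.Agent.TH465.OM.ind P n := by
      intro P n
      unfold Pool.Agent.TH465.OM.ind
      by_cases g2 : n % Q = r % Q <;> by_cases g3 : P n <;> simp [g2, g3]
    have h7 := avg_of hBas (w := fun n => if n % Q = r % Q then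
        (ArithmeticFunction.moebius n : ℝ) else 0) (W := 1) ?_
      (Pool.Agent.TH465.OM.mn_congr (b2 Q r hQ) fun n _ => hprod _ n)
      (Pool.Agent.TH465.OM.mn_congr (c2 Q r hQ) fun n _ => hprod _ n) hΛ
    · simpa using h7
    · intro n
      show |(if n % Q = r % Q then (ArithmeticFunction.moebius n : ℝ) else 0)| ≤ 1
      split_ifs
      · exact_mod_cast ArithmeticFunction.abs_moebius_le_one
      · simp
  · obtain ⟨⟨B, hB⟩, hg2⟩ := hg
    have hsh : Pool.Agent.TH465.OM.Sh (fun n => g n - α) := by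
      intro ε hε
      obtain ⟨H, hH, h5⟩ := hg2 ε hε
      refine ⟨H, hH, ?_⟩
      filter_upwards [h5] with N hN
      refine le_trans (le_of_eq ?_) hN
      unfold Pool.Agent.H499R2.ND.cnt
      congr 2
      ext n
      rw [Set.mem_ofPred_eq, Set.mem_ofPred_eq]
      show 1 ≤ n ∧ n ≤ N ∧ ε * (H : ℝ) < |∑ j ∈ Finset.range H, (g (n + j) - α)| ↔ _
      rw [Finset.sum_sub_distrib, Finset.sum_const, Finset.card_range, nsmul_eq_mul, mul_comm (H : ℝ) α]
    have h7 := avg_of hBas hB (b3 g α B hB hsh) (c3 g α B hB hsh) hΛ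
    rw [show 2 / Real.log (4 / 3) * (α * δ) + Λ * (α * (1 - δ)) =
      α * (δ * (2 / Real.log (4 / 3)) + (1 - δ) * Λ) by ring] at h7
    exact h7

end Pool.Agent.Results.MP_529d88_nt.AverageOverPrimeParity
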