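import Pool.Agent.TH977.LL.Cls6

set_option autoImplicit false

/-!
Joint local law of the total stopping time and the number of odd terms of the `3x+1` function.

The number of the integers with total stopping time `l` and exactly `i` odd terms before reaching `1` is
`(κ i + o(1)) * binom(l, i) / 3 ^ i`, uniformly for `|l - 2 i| ≤ B √i`, with `κ` bounded, bounded away
from `0`, independent of `l` and slowly varying; every residue class modulo `2 ^ r * 3 ^ m` contains its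
share of these integers.
-/

namespace Pool.Agent.Results.MP_529d88_nt.JointLocalLaw

/-- the `3x+1` function -/
def T (n : ℕ) : ℕ := if n % 2 = 0 then n / 2 else (3 * n + 1) / 2

/-- `t` is the total stopping time of `n` -/
def IsTotalStoppingTime (n t : ℕ) : Prop := T^[t] n = 1 ∧ ∀ j < t, T^[j] n ≠ 1

/-- the number of odd terms among `n, T n, ..., T^(k-1) n` -/
def odds (k n : ℕ) : ℕ := ((Finset.range k).filter fun i => T^[i] n % 2 = 1).card

/-- the set of the positive integers with total stopping time `l` and exactly `i` odd terms before `1` -/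
def cell (l i : ℕ) : Set ℕ := {n : ℕ | 1 ≤ n ∧ IsTotalStoppingTime n l ∧ odds l n = i}

/-- the expected number `binom(l, i) / 3 ^ i` of the random model -/
noncomputable def expected (l i : ℕ) : ℝ := (l.choose i : ℝ) / 3 ^ i

open Pool.Agent.TH977.LL

theorem cell_eq (l i : ℕ) : cell l i = W l i := rfl

theorem class_eq (l i r m : ℕ) (b : ℤ) :
    {n : ℕ | n ∈ cell l i ∧ (n : ℤ) ≡ b [ZMOD 2 ^ r * 3 ^ m]} = Wq l i (2 ^ r * 3 ^ m) b := by
  ext n
  unfold Wq
  rw [cell_eq]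
  constructor
  · rintro ⟨h1, h2⟩
    exact ⟨h1, (dvd_sub_comm).1 (Int.modEq_iff_dvd.1 h2)⟩
  · rintro ⟨h1, h2⟩
    exact ⟨h1, Int.modEq_iff_dvd.2 ((dvd_sub_comm).1 h2)⟩

theorem result : ∃ κ : ℕ → ℝ, (∃ c C : ℝ, 0 < c ∧ ∀ i, c ≤ κ i ∧ κ i ≤ C) ∧
    (∀ A ε : ℝ, 0 < ε → ∃ i₀ : ℕ, ∀ i j : ℕ, i₀ ≤ i → i ≤ j → (j : ℝ) ≤ A * i → |κ i - κ j| ≤ ε) ∧
    (∀ l i, (cell l i).Finite) ∧
    ∀ (r m : ℕ) (B ε : ℝ), 0 < ε → ∃ i₀ : ℕ, ∀ (i l : ℕ) (b : ℤ), i₀ ≤ i → |(l : ℝ) - 2 * i| ≤ B * Real.sqrt i →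
      |({n : ℕ | n ∈ cell l i ∧ (n : ℤ) ≡ b [ZMOD 2 ^ r * 3 ^ m]}.ncard : ℝ) -
        κ i / (2 ^ r * 3 ^ m) * expected l i| ≤ ε * expected l i := by
  obtain ⟨c, hc⟩ := res_W
  obtain ⟨c1, C, hc1, hC, I0, hmid⟩ := kk_bd hc
  refine ⟨fun i => max c1 (min C (kk i)), ⟨c1, max c1 C, hc1,
    fun i => ⟨le_max_left _ _, max_le_max le_rfl (min_le_left _ _)⟩⟩, ?_, fun l i => ?_, ?_⟩
  · intro A ε hε
    obtain ⟨I, h⟩ := slow hc A hε
    refine ⟨I + I0, fun i j hi hij hj => ?_⟩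
    obtain ⟨m1, m2⟩ := hmid i (by omega)
    obtain ⟨m3, m4⟩ := hmid j (by omega)
    simp only [min_eq_right m2, max_eq_right m1, min_eq_right m4, max_eq_right m3]
    exact h i j (by omega) hij hj
  · rw [cell_eq]
    exact W_finite l i
  intro r m B ε hε
  obtain ⟨I, h⟩ := law hc r m (|B| + 1) ε (by positivity) hε
  refine ⟨I0 + I + ⌈(|B| + 1) ^ 2⌉₊ + 1, fun i l b hi hl => ?_⟩
  have hi0 : (0 : ℝ) < i := by
    have : 0 < i := by omega
    exact_mod_cast this
  have hs0 : 0 < Real.sqrt i := Real.sqrt_pos.2 hi0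
  have hss : Real.sqrt i ^ 2 = i := Real.sq_sqrt hi0.le
  have hBs : |B| + 1 ≤ Real.sqrt i := by
    apply Real.le_sqrt_of_sq_le
    refine (Nat.le_ceil _).trans ?_
    have : ⌈(|B| + 1) ^ 2⌉₊ ≤ i := by omega
    exact_mod_cast this
  have hl' : |(l : ℝ) - 2 * i| ≤ (|B| + 1) * Real.sqrt i := by
    refine hl.trans (mul_le_mul_of_nonneg_right ?_ hs0.le)
    linarith [le_abs_self B]
  have hil : i ≤ l := by
    have g1 : (|B| + 1) * Real.sqrt i ≤ i := by
      have := mul_le_mul_of_nonneg_right hBs hs0.le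
      rw [← pow_two, hss] at this
      exact this
    have g2 := (abs_le.1 hl').1
    have : (i : ℝ) ≤ l := by linarith
    exact_mod_cast this
  obtain ⟨e, rfl⟩ := Nat.exists_eq_add_of_le hil
  have g2 := h i e (by omega) (by
    have : (e : ℝ) - i = ((i + e : ℕ) : ℝ) - 2 * i := by push_cast; ring
    rw [this]
    exact hl') b
  obtain ⟨m1, m2⟩ := hmid i (by omega)
  have hk : max c1 (min C (kk i)) = kk i := by
    rw [min_eq_right m2, max_eq_right m1]
  simp only [hk]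
  rw [class_eq]
  exact g2

end Pool.Agent.Results.MP_529d88_nt.JointLocalLaw
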